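import Pool.Agent.H24.NT.Main

/-!
Properness of the global-to-local map over `k(X)`, `k` an arbitrary infinite field, for the group
of elements of norm one in a product of division algebras over `k`.
-/

namespace Pool.Agent.Results.MP_5f3321_nt.ConstantDivisionAlgebras

open Polynomial IsDedekindDomain Pool.H24.NT

universe u v w x

/-- Let `k` be an infinite field, `D j`, `j : J`, a nonempty family of division algebras over `k`
with finite bases `e j`, and `Φ j` a norm form of degree `n j` on `D j` (for instance `J` has one
element, `D` is central of dimension `n ^ 2` and `Φ` its reduced norm). For a field `F` over `k`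
let `normGroup Φ F` be the group generated by the norms from `D j ⊗ F`, `j : J`. For a closed
point `v` of the affine line over `k` let `e_v` be the index in `ℤ` of the group generated by the
orders at `v` of the norms from `D j ⊗ k(X)_v`. Let `P` be a set of closed points of the affine
line with `e_v = 1` for all but finitely many `v ∈ P`, for instance a finite set. Then:

* for every `j` and every field `F` over `k` the nonzero values of `Φ j` over `F` form a group;
* the map `theta Φ P`, from `k(X)^× / normGroup` to the product of the groups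
  `k(X)_v^× / normGroup` over all closed points `v ∉ P`, is proper: the preimage of every finite
  set is finite;
* every fibre of `theta Φ P` has at most `∏ e_v` elements, the product over `v ∈ P`, `e_v ≠ 1`;
* `e_v` divides `n j` for all `v` and `j`. -/
theorem result {k : Type u} [Field k] [Infinite k] {J : Type x} [Nonempty J]
    {D : J → Type v} [∀ j, DivisionRing (D j)] [∀ j, Algebra k (D j)]
    {ι : J → Type w} [∀ j, Fintype (ι j)] (e : ∀ j, Module.Basis (ι j) k (D j)) (n : J → ℕ)
    (Φ : ∀ j, MvPolynomial (ι j) k) (hΦ : ∀ j, IsNormForm (e j) (n j) (Φ j))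
    (P : Set (HeightOneSpectrum k[X]))
    (hP : {v : HeightOneSpectrum k[X] | v ∈ P ∧ (ordGroup Φ v).index ≠ 1}.Finite) :
    (∀ (j : J) (F : Type u) [Field F] [Algebra k F], ∃ H : Subgroup Fˣ, ∀ f : Fˣ,
      f ∈ H ↔ ∃ u : ι j → F, MvPolynomial.aeval u (Φ j) = (f : F)) ∧
    (∀ T : Set (∀ v : {v : HeightOneSpectrum k[X] // v ∉ P},
      H1 Φ (v.1.adicCompletion (RatFunc k))), T.Finite → (theta Φ P ⁻¹' T).Finite) ∧
    (∀ x : ∀ v : {v : HeightOneSpectrum k[X] // v ∉ P}, H1 Φ (v.1.adicCompletion (RatFunc k)),
      {y : H1 Φ (RatFunc k) | theta Φ P y = x}.ncard ≤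
        ∏ v ∈ hP.toFinset, (ordGroup Φ v).index) ∧
    (∀ (v : HeightOneSpectrum k[X]) (j : J), (ordGroup Φ v).index ∣ n j) := by
  have h : ∀ j, MulForm (e j) (n j) (Φ j) := fun j =>
    ⟨(hΦ j).pos, (hΦ j).hom, (hΦ j).mul, (hΦ j).one⟩
  obtain ⟨j₀⟩ := ‹Nonempty J›
  refine ⟨fun j F _ _ => values_subgroup (h j) F, ?_, fun x => (main h j₀ P hP x).2,
    fun v j => index_dvd h j v⟩
  intro T hT
  exact hT.preimage' fun x _ => (main h j₀ P hP x).1

end Pool.Agent.Results.MP_5f3321_nt.ConstantDivisionAlgebras
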